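import Mathlib
import Pool.Agent.Y959.Opn.Main

set_option autoImplicit false

/-!
# The reciprocals of the prime factors of an odd perfect number outside of a given set

Let `N` be an odd perfect number with the exponents `e_p`. The descent of Heath-Brown, Cook and
Nielsen, with the exact exponents used as soon as possible (see the starting hand-in `ExponentBound`),
is stopped when the primes of a given set `V` are used up. The descent can only stop if the other
prime factors of `N` contribute at least a certain amount to the sum of the reciprocals. For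
`V` = the set of the prime factors smaller than `q` this bounds the prime factor `q` in terms of the
smaller prime factors' exponents only, and the number of the remaining prime factors.

The theorems are `tail` and `small_prime` of the starting file `Pool.Agent.Y959.Opn.Main`.
-/

namespace Pool.Agent.Results.MP_f02ea4_nt.ReciprocalTail

/-- **Main theorem.** Let `N` be an odd perfect number, `e_p` the exponent of `p` in `N`.

(1) Let `V` be a set of prime factors of `N`, but not the set of all of them, and `D` a subset of `V`
(for instance the empty set). Then the sum of the `1 / p` over the prime factors `p` of `N` which are not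
in `V` is greater than `(6 ∏_{p ∈ D} p) ^ (-E)`,
`E = ∏_{p ∈ D} (2 e_p / (e_p + 1)) ∏_{p ∈ V, p ∉ D} (4 e_p / (e_p + 1))`.

(2) Every prime factor `q` of `N` is smaller than `m * 6 ^ E'`, where `m` is the number of the prime
factors of `N` which are at least `q` and `E' = ∏_{p < q} (4 e_p / (e_p + 1))`, the product over the
prime factors `p < q` of `N`. -/
theorem result (N : ℕ) (hodd : Odd N) (hperf : N.Perfect) :
    (∀ V : Finset ℕ, V ⊂ N.primeFactors → ∀ D ⊆ V,
      (6 * ∏ p ∈ D, (p : ℝ)) ^
        (-((∏ p ∈ D, 2 * (N.factorization p : ℝ) / (N.factorization p + 1)) *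
          ∏ p ∈ V \ D, 4 * (N.factorization p : ℝ) / (N.factorization p + 1))) <
        ∑ p ∈ N.primeFactors \ V, 1 / (p : ℝ)) ∧
    ∀ q ∈ N.primeFactors,
      (q : ℝ) < ((N.primeFactors.filter (fun p => q ≤ p)).card : ℝ) *
        (6 : ℝ) ^ (∏ p ∈ N.primeFactors.filter (fun p => p < q),
          4 * (N.factorization p : ℝ) / (N.factorization p + 1)) := by
  have hw : ∀ J : Finset ℕ, ∏ p ∈ J, (2 * Pool.Agent.Y959.Opn.w1 N.factorization p) =
      ∏ p ∈ J, 4 * (N.factorization p : ℝ) / (N.factorization p + 1) := by
    intro J
    apply Finset.prod_congr rfl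
    intro p _
    unfold Pool.Agent.Y959.Opn.w1
    ring
  refine ⟨fun V hV D hD => ?_, fun q hq => ?_⟩
  · have h := Pool.Agent.Y959.Opn.tail hodd hperf hD hV
    rw [hw] at h
    have hpos : (0 : ℝ) < 6 * ∏ p ∈ D, (p : ℝ) := by
      refine mul_pos (by norm_num) (Finset.prod_pos fun p hp => ?_)
      exact_mod_cast (Nat.prime_of_mem_primeFactors (hV.subset (hD hp))).pos
    rw [Real.rpow_def_of_pos hpos]
    have heq : Real.log (6 * ∏ p ∈ D, (p : ℝ)) *
        -((∏ p ∈ D, 2 * (N.factorization p : ℝ) / (N.factorization p + 1)) *
          ∏ p ∈ V \ D, 4 * (N.factorization p : ℝ) / (N.factorization p + 1)) =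
        -(Real.log (6 * ∏ p ∈ D, (p : ℝ)) *
          ((∏ p ∈ D, Pool.Agent.Y959.Opn.w1 N.factorization p) *
            ∏ p ∈ V \ D, 4 * (N.factorization p : ℝ) / (N.factorization p + 1))) := by
      unfold Pool.Agent.Y959.Opn.w1
      ring
    rw [heq]
    exact h
  · have h := Pool.Agent.Y959.Opn.small_prime hodd hperf hq
    rw [hw] at h
    exact h

end Pool.Agent.Results.MP_f02ea4_nt.ReciprocalTail
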