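import Mathlib
import Pool.Agent.Y959.Sv.Main

set_option autoImplicit false

/-!
# The prime factors of an odd perfect number whose exponent, increased by one, has a small factor

Let `N` be an odd perfect number, `v_p` the exponent of the prime `p` in `N` and `B` a number. A prime
factor `p` of `N` is called bad if `v_p + 1` has a prime factor which is at most `B` (for instance if
`v_p < B`), and good otherwise. If `l` is a prime factor of `v_p + 1`, then every prime factor of
`1 + p + ⋯ + p ^ (l - 1)` divides `2 N`; together with the sparsity of the prime factors of `N` a sieve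
of dimension two shows that there are only `O (x / (log x) ^ 2)` bad primes up to `x`, with a constant
which depends on `B` only. So the reciprocals of the bad primes contribute only `O (1 / log P)`,
`P` the least prime factor of `N`, to the sum of the reciprocals of all prime factors of `N`.

The theorems are those of the starting file `Pool.Agent.Y959.Sv.Main`.
-/

namespace Pool.Agent.Results.MP_f02ea4_nt.SmallFactorExponents

open scoped Classical in
/-- **Main theorem.** For every `B` there is a constant `C` such that for all odd perfect numbers `N`: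

(1) for all `x ≥ 2` at most `C x / (log x) ^ 2` of the prime factors `p ≤ x` of `N` are such that the
least prime factor of `v_p + 1` is at most `B`;

(2) for all `P ≥ 2` the sum of `1 / p` over the prime factors `p ≥ P` of `N` such that the least prime
factor of `v_p + 1` is at most `B` is at most `C / log P`;

(3) the sum of `1 / p` over the prime factors `p` of `N` such that all prime factors of `v_p + 1` are
greater than `B` (so that also `v_p ≥ B`) is at least `log 2 - C / log P`, `P` the least prime factor
of `N`. -/
theorem result (B : ℕ) : ∃ C : ℝ, 0 < C ∧ ∀ N : ℕ, Odd N → N.Perfect →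
    (∀ x : ℕ, 2 ≤ x →
      (({p ∈ N.primeFactors | p ≤ x ∧ (N.factorization p + 1).minFac ≤ B}.card : ℕ) : ℝ) ≤
        C * (x / Real.log x ^ 2)) ∧
    (∀ P : ℕ, 2 ≤ P →
      ∑ p ∈ N.primeFactors with (P ≤ p ∧ (N.factorization p + 1).minFac ≤ B), 1 / (p : ℝ) ≤
        C / Real.log P) ∧
    Real.log 2 - C / Real.log N.minFac ≤
      ∑ p ∈ N.primeFactors with (∀ l : ℕ, l.Prime → l ∣ N.factorization p + 1 → B < l),
        1 / (p : ℝ) := by
  classical
  obtain ⟨C₁, hC₁, h₁⟩ := Pool.Agent.Y959.Sv.count_bad B
  obtain ⟨C₂, hC₂, h₂⟩ := Pool.Agent.Y959.Sv.sum_bad B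
  obtain ⟨C₃, hC₃, h₃⟩ := Pool.Agent.Y959.Sv.sum_good B
  have hC : 0 < C₁ + C₂ + C₃ := by positivity
  refine ⟨C₁ + C₂ + C₃, hC, fun N hodd hperf => ⟨fun x hx => ?_, fun P hP => ?_, ?_⟩⟩
  · refine (h₁ N hodd hperf x hx).trans ?_
    have : (0 : ℝ) ≤ (x : ℝ) / Real.log x ^ 2 := by positivity
    exact mul_le_mul_of_nonneg_right (by linarith) this
  · refine (h₂ N hperf.2.ne' ((Nat.perfect_iff_sum_divisors_eq_two_mul hperf.2).1 hperf) P hP).trans ?_
    have : (0 : ℝ) ≤ Real.log P := Real.log_natCast_nonneg P
    exact div_le_div_of_nonneg_right (by linarith) this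
  · have h := h₃ N hodd hperf
    have h4 : (0 : ℝ) ≤ Real.log N.minFac := Real.log_natCast_nonneg _
    have h5 : C₃ / Real.log N.minFac ≤ (C₁ + C₂ + C₃) / Real.log N.minFac :=
      div_le_div_of_nonneg_right (by linarith) h4
    have h6 : N.primeFactors.filter (fun p => B < (N.factorization p + 1).minFac) =
        N.primeFactors.filter (fun p => ∀ l : ℕ, l.Prime → l ∣ N.factorization p + 1 → B < l) := by
      apply Finset.filter_congr
      intro p hp
      have hv : N.factorization p ≠ 0 :=
        ((Nat.prime_of_mem_primeFactors hp).factorization_pos_of_dvd hperf.2.ne'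
          (Nat.dvd_of_mem_primeFactors hp)).ne'
      constructor
      · intro hB l hl hdvd
        exact hB.trans_le (Nat.minFac_le_of_dvd hl.two_le hdvd)
      · intro hall
        exact hall _ (Nat.minFac_prime (by omega)) (Nat.minFac_dvd _)
    rw [h6] at h
    linarith

end Pool.Agent.Results.MP_f02ea4_nt.SmallFactorExponents
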